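import Pool.Agent.H32.QC.TargetsL

/-!
# Completions of number fields: rows NIV and OPV
-/

set_option autoImplicit false

open NumberField IsDedekindDomain Pool.Agent.H32.QC

namespace Pool.Agent.H85.QCL

/-- the completion as a nontrivially normed field -/
noncomputable abbrev nnf {K : Type} [Field K] [NumberField K] (v : FPl K)
    (h : ∃ x : v.adicCompletion K, 1 < ‖x‖) : NontriviallyNormedField (v.adicCompletion K) :=
  { (inferInstance : NormedField (v.adicCompletion K)) with non_trivial := h }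

theorem pf_NIV (hADC : T_ADC) (hNIX : T_NIX) (hCAR : T_CAR) (hCTW : T_CTW) : T_NIV := by
  intro K _ _ v
  obtain ⟨hp, hc, hx⟩ := hADC K v
  have h4 := hCTW K v
  have h1 : NI (v.adicCompletion K) := @hNIX (v.adicCompletion K) (nnf v hx) _ hp hc
  have h2 : nsq (v.adicCompletion K) = 4 * c2 (v.adicCompletion K) :=
    (@hCAR (v.adicCompletion K) (nnf v hx) _ hp hc).1
  refine ⟨two_ne_zero, h1, ?_⟩
  rw [h2]
  push_cast
  rw [mul_assoc, h4, mul_one]

theorem pf_OPV (hADC : T_ADC) (hOPN : T_OPN) : T_OPV := by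
  intro K _ _ v c0 h0
  obtain ⟨hp, hc, hx⟩ := hADC K v
  exact @hOPN (v.adicCompletion K) (nnf v hx) _ _ hc c0 h0

end Pool.Agent.H85.QCL
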