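import Pool.Agent.H85.QCL.NIV

/-!
# Odd places: row ODD
-/

set_option autoImplicit false

open NumberField IsDedekindDomain Pool.Agent.H32.QC HeightOneSpectrum

namespace Pool.Agent.H85.QCL

theorem norm_ic {K : Type} [Field K] [NumberField K] (v : FPl K) (x : K) :
    ‖ic v x‖ = WithZeroMulInt.toNNReal (absNorm_ne_zero v) (v.valuation K x) :=
  FinitePlace.norm_embedding' v x

theorem norm_ic_one {K : Type} [Field K] [NumberField K] (v : FPl K) (x : K)
    (h : v.valuation K x = 1) : ‖ic v x‖ = 1 := by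
  rw [norm_ic, h, map_one, NNReal.coe_one]

theorem pf_ODD (hADC : T_ADC) (hUNR : T_UNR) (hTAM : T_TAM) : T_ODD := by
  intro K _ _ v h2 u hu
  obtain ⟨hp, hc, hx⟩ := hADC K v
  have h2n : ‖(2 : v.adicCompletion K)‖ = 1 := by
    have h := norm_ic_one v 2 h2
    rwa [map_ofNat] at h
  have hun : ‖ic v u‖ = 1 := norm_ic_one v u hu
  obtain ⟨-, hU2, hU3⟩ := @hUNR (v.adicCompletion K) (nnf v hx) _ hp hc h2n
  have hT := @hTAM (v.adicCompletion K) (nnf v hx) _ _ hc h2n
  refine ⟨fun b n hb => ⟨fun hn => ?_, fun hn hs0 => ?_⟩, fun a ha => ?_⟩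
  · obtain ⟨m, rfl⟩ := hn
    obtain ⟨y, hy⟩ := v.valuation_surjective K (WithZero.exp m)
    have h1 : Sol (ic v u) (1 * ic v b) := by
      refine hU2 (ic v u) 1 (ic v b) hun norm_one ⟨ic v y, ?_⟩
      show ‖ic v b‖ = ‖ic v y‖ ^ 2
      rw [norm_ic, norm_ic, hb, hy, WithZero.exp_add, map_mul, NNReal.coe_mul, sq]
    rw [one_mul] at h1
    show hil (ic v u) (ic v b) = 1
    unfold hil
    rw [if_pos h1]
  · have hb0 : b ≠ 0 := by
      rintro rfl
      rw [map_zero] at hb
      exact WithZero.exp_ne_zero hb.symm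
    have h1 : ¬ Sol (ic v u) (ic v b) := by
      refine hT (ic v u) (ic v b) hun hs0 ?_ ?_
      · exact (map_ne_zero (ic v)).2 hb0
      · intro d hd
        have hd' : ‖ic v b‖ = ‖d‖ ^ 2 := hd
        rw [norm_ic, hb, FinitePlace.norm_def, ← NNReal.coe_pow, ← map_pow] at hd'
        have h3 := (WithZeroMulInt.toNNReal_strictMono (one_lt_absNorm_nnreal v)).injective
          (NNReal.coe_injective hd')
        by_cases hd0 : Valued.v d = 0
        · rw [hd0, zero_pow two_ne_zero] at h3
          exact WithZero.exp_ne_zero h3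
        · rw [← WithZero.exp_log hd0, sq, ← WithZero.exp_add] at h3
          have h4 := WithZero.exp_injective h3
          rw [h4] at hn
          exact (Int.not_even_iff_odd.2 hn) ⟨_, rfl⟩
    show hil (ic v u) (ic v b) = -1
    unfold hil
    rw [if_neg h1]
  · exact hU3 (fun i => ic v (a i)) fun i => norm_ic_one v (a i) (ha i)

end Pool.Agent.H85.QCL
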